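import Pool.Agent.Helper27.EX.LDefs

/-!
# MP_2857a5_co : basic facts on rooted trees (module TB)
-/

set_option autoImplicit false

open Finset
open scoped Classical

namespace OT

noncomputable section

variable {n : ℕ}

/-! ### TB : basic facts -/

theorem PTree.Le.le {T : PTree n} {u v : Fin n} (h : T.Le u v) : u ≤ v := by
  induction h with
  | refl => exact le_rfl
  | tail _ hbc ih =>
    have := T.lt _ hbc.1
    rw [hbc.2] at this
    exact ih.trans this.le

theorem PTree.Le.refl (T : PTree n) (v : Fin n) : T.Le v v := Relation.ReflTransGen.refl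

theorem PTree.Le.trans {T : PTree n} {u v w : Fin n} (h : T.Le u v) (h' : T.Le v w) :
    T.Le u w := Relation.ReflTransGen.trans h h'

theorem PTree.Le.antisymm {T : PTree n} {u v : Fin n} (h : T.Le u v) (h' : T.Le v u) :
    u = v := le_antisymm h.le h'.le

theorem PTree.le_iff {T : PTree n} {u v : Fin n} :
    T.Le u v ↔ u = v ∨ ((v : ℕ) ≠ 0 ∧ T.Le u (T.par v)) := by
  unfold PTree.Le
  rw [Relation.ReflTransGen.cases_tail_iff]
  constructor
  · rintro (h | ⟨c, hc, h0, hp⟩)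
    · exact Or.inl h.symm
    · subst hp
      exact Or.inr ⟨h0, hc⟩
  · rintro (h | ⟨h0, hc⟩)
    · exact Or.inl h.symm
    · exact Or.inr ⟨_, hc, h0, rfl⟩

theorem tb_total {T : PTree n} : ∀ (k : ℕ) (u v w : Fin n), (w : ℕ) ≤ k → T.Le u w → T.Le v w →
    T.Le u v ∨ T.Le v u := by
  intro k
  induction k with
  | zero =>
    intro u v w hw h h'
    rcases PTree.le_iff.1 h with rfl | ⟨h0, _⟩
    · exact Or.inr h'
    · omega
  | succ k ih =>
    intro u v w hw h h'
    rcases PTree.le_iff.1 h with rfl | ⟨h0, h1⟩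
    · exact Or.inr h'
    rcases PTree.le_iff.1 h' with rfl | ⟨_, h2⟩
    · exact Or.inl h
    have hlt : (T.par w : ℕ) < (w : ℕ) := T.lt w h0
    exact ih u v (T.par w) (by omega) h1 h2

theorem PTree.Le.total {T : PTree n} {u v w : Fin n} (h : T.Le u w) (h' : T.Le v w) :
    T.Le u v ∨ T.Le v u := tb_total (w : ℕ) u v w le_rfl h h'

theorem tb_le_root (T : PTree n) (z : Fin n) (hz : (z : ℕ) = 0) :
    ∀ (k : ℕ) (v : Fin n), (v : ℕ) ≤ k → T.Le z v := by
  intro k
  induction k with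
  | zero =>
    intro v hv
    have : z = v := Fin.ext (by omega)
    subst this
    exact PTree.Le.refl T z
  | succ k ih =>
    intro v hv
    by_cases h0 : (v : ℕ) = 0
    · have : z = v := Fin.ext (by omega)
      subst this
      exact PTree.Le.refl T z
    · have hlt : (T.par v : ℕ) < (v : ℕ) := T.lt v h0
      exact PTree.le_iff.2 (Or.inr ⟨h0, ih _ (by omega)⟩)

theorem PTree.le_root (T : PTree n) (z : Fin n) (hz : (z : ℕ) = 0) (v : Fin n) : T.Le z v :=
  tb_le_root T z hz (v : ℕ) v le_rfl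

theorem PTree.mem_sub {T : PTree n} {v w : Fin n} : w ∈ T.sub v ↔ T.Le v w := by
  unfold PTree.sub
  simp

theorem tb_mem_ch {T : PTree n} {v c : Fin n} : c ∈ T.ch v ↔ (c : ℕ) ≠ 0 ∧ T.par c = v := by
  unfold PTree.ch
  simp

theorem tb_not_le_of_ch {T : PTree n} {p c : Fin n} (h : c ∈ T.ch p) : ¬ T.Le c p := by
  intro hle
  obtain ⟨h0, hp⟩ := tb_mem_ch.1 h
  have h1 := T.lt c h0
  rw [hp] at h1
  exact absurd hle.le (not_le.2 h1)

theorem tb_ch_aux {T : PTree n} {p c c' : Fin n} (h : c ∈ T.ch p) (h' : c' ∈ T.ch p)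
    (hne : c ≠ c') : ¬ T.Le c c' := by
  intro hle
  rcases PTree.le_iff.1 hle with h1 | ⟨_, h1⟩
  · exact hne h1
  · rw [(tb_mem_ch.1 h').2] at h1
    exact tb_not_le_of_ch h h1

theorem PTree.sub_disjoint {T : PTree n} {p c c' : Fin n} (h : c ∈ T.ch p) (h' : c' ∈ T.ch p)
    (hne : c ≠ c') : Disjoint (T.sub c) (T.sub c') := by
  rw [Finset.disjoint_left]
  intro w hw hw'
  rw [PTree.mem_sub] at hw hw'
  rcases PTree.Le.total hw hw' with h1 | h1
  · exact tb_ch_aux h h' hne h1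
  · exact tb_ch_aux h' h (Ne.symm hne) h1

theorem tb_sub_eq (T : PTree n) (v : Fin n) : T.sub v = insert v ((T.ch v).biUnion T.sub) := by
  ext w
  rw [Finset.mem_insert, Finset.mem_biUnion, PTree.mem_sub]
  unfold PTree.Le
  rw [Relation.ReflTransGen.cases_head_iff]
  constructor
  · rintro (h | ⟨c, ⟨h0, hp⟩, hc⟩)
    · exact Or.inl h.symm
    · exact Or.inr ⟨c, tb_mem_ch.2 ⟨h0, hp⟩, PTree.mem_sub.2 hc⟩
  · rintro (h | ⟨c, hc, hw⟩)
    · exact Or.inl h.symm
    · exact Or.inr ⟨c, tb_mem_ch.1 hc, PTree.mem_sub.1 hw⟩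

theorem PTree.sum_sub (T : PTree n) (g : Fin n → ℤ) (v : Fin n) :
    ∑ x ∈ T.sub v, g x = g v + ∑ c ∈ T.ch v, ∑ x ∈ T.sub c, g x := by
  rw [tb_sub_eq T v, Finset.sum_insert, Finset.sum_biUnion]
  · intro c hc c' hc' hne
    exact PTree.sub_disjoint hc hc' hne
  · intro h
    obtain ⟨c, hc, hv⟩ := Finset.mem_biUnion.1 h
    exact tb_not_le_of_ch hc (PTree.mem_sub.1 hv)

theorem PTree.Nb.symm {T : PTree n} {u v : Fin n} (h : T.Nb u v) : T.Nb v u := Or.symm h

theorem tb_mem_ball_succ {T : PTree n} {k : ℕ} {v w : Fin n} :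
    w ∈ T.ball (k + 1) v ↔ w ∈ T.ball k v ∨ ∃ u ∈ T.ball k v, T.Nb u w := by
  show w ∈ T.ball k v ∪ univ.filter (fun w => ∃ u ∈ T.ball k v, T.Nb u w) ↔ _
  rw [Finset.mem_union, Finset.mem_filter]
  simp

theorem tb_mem_ball_zero {T : PTree n} {v w : Fin n} : w ∈ T.ball 0 v ↔ w = v := by
  show w ∈ ({v} : Finset (Fin n)) ↔ _
  exact Finset.mem_singleton

theorem PTree.self_mem_ball (T : PTree n) (k : ℕ) (v : Fin n) : v ∈ T.ball k v := by
  induction k with
  | zero => exact tb_mem_ball_zero.2 rfl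
  | succ k ih => exact tb_mem_ball_succ.2 (Or.inl ih)

theorem PTree.ball_mono (T : PTree n) {j k : ℕ} (h : j ≤ k) (v : Fin n) :
    T.ball j v ⊆ T.ball k v := by
  induction k, h using Nat.le_induction with
  | base => exact Finset.Subset.refl _
  | succ k _ ih => exact fun w hw => tb_mem_ball_succ.2 (Or.inl (ih hw))

theorem tb_ball_cons {T : PTree n} {v u : Fin n} (h : T.Nb v u) :
    ∀ (k : ℕ) (w : Fin n), w ∈ T.ball k u → w ∈ T.ball (k + 1) v := by
  intro k
  induction k with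
  | zero =>
    intro w hw
    rw [tb_mem_ball_zero] at hw
    subst hw
    exact tb_mem_ball_succ.2 (Or.inr ⟨v, PTree.self_mem_ball T 0 v, h⟩)
  | succ k ih =>
    intro w hw
    rcases tb_mem_ball_succ.1 hw with h1 | ⟨x, hx, hxw⟩
    · exact tb_mem_ball_succ.2 (Or.inl (ih w h1))
    · exact tb_mem_ball_succ.2 (Or.inr ⟨x, ih x hx, hxw⟩)

theorem tb_ball_comm {T : PTree n} :
    ∀ (k : ℕ) (v w : Fin n), w ∈ T.ball k v → v ∈ T.ball k w := by
  intro k
  induction k with
  | zero =>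
    intro v w hw
    rw [tb_mem_ball_zero] at hw ⊢
    exact hw.symm
  | succ k ih =>
    intro v w hw
    rcases tb_mem_ball_succ.1 hw with h1 | ⟨x, hx, hxw⟩
    · exact tb_mem_ball_succ.2 (Or.inl (ih v w h1))
    · exact tb_ball_cons hxw.symm k v (ih v x hx)

theorem PTree.mem_ball_comm {T : PTree n} {k : ℕ} {v w : Fin n} :
    w ∈ T.ball k v ↔ v ∈ T.ball k w := ⟨tb_ball_comm k v w, tb_ball_comm k w v⟩

theorem tb_ball_trans {T : PTree n} {j : ℕ} {u v : Fin n} (h : v ∈ T.ball j u) :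
    ∀ (k : ℕ) (w : Fin n), w ∈ T.ball k v → w ∈ T.ball (j + k) u := by
  intro k
  induction k with
  | zero =>
    intro w hw
    rw [tb_mem_ball_zero] at hw
    subst hw
    exact h
  | succ k ih =>
    intro w hw
    rcases tb_mem_ball_succ.1 hw with h1 | ⟨x, hx, hxw⟩
    · exact tb_mem_ball_succ.2 (Or.inl (ih w h1))
    · exact tb_mem_ball_succ.2 (Or.inr ⟨x, ih x hx, hxw⟩)

theorem PTree.ball_trans {T : PTree n} {j k : ℕ} {u v w : Fin n} (h : v ∈ T.ball j u)
    (h' : w ∈ T.ball k v) : w ∈ T.ball (j + k) u := tb_ball_trans h k w h'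

theorem PTree.Nb.mem_ball {T : PTree n} {u v : Fin n} (h : T.Nb u v) : v ∈ T.ball 1 u :=
  tb_ball_cons h 0 v (PTree.self_mem_ball T 0 v)

theorem PTree.card_ball (T : PTree n) {Δ : ℕ} (h : T.Deg Δ) (k : ℕ) (v : Fin n) :
    (T.ball k v).card ≤ (Δ + 2) ^ k := by
  induction k with
  | zero =>
    show ({v} : Finset (Fin n)).card ≤ _
    simp
  | succ k ih =>
    have hsub : T.ball (k + 1) v ⊆
        (T.ball k v).biUnion (fun u => insert u (insert (T.par u) (T.ch u))) := by
      intro w hw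
      rw [Finset.mem_biUnion]
      rcases tb_mem_ball_succ.1 hw with h1 | ⟨x, hx, hxw⟩
      · exact ⟨w, h1, Finset.mem_insert_self _ _⟩
      · refine ⟨x, hx, ?_⟩
        rcases hxw with ⟨h0, hp⟩ | ⟨h0, hp⟩
        · exact Finset.mem_insert_of_mem (Finset.mem_insert_of_mem (tb_mem_ch.2 ⟨h0, hp⟩))
        · rw [← hp]
          exact Finset.mem_insert_of_mem (Finset.mem_insert_self _ _)
    have hcard : ∀ u ∈ T.ball k v, (insert u (insert (T.par u) (T.ch u))).card ≤ Δ + 2 := by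
      intro u _
      have h1 := Finset.card_insert_le u (insert (T.par u) (T.ch u))
      have h2 := Finset.card_insert_le (T.par u) (T.ch u)
      have h3 : (T.ch u).card ≤ Δ := h u
      omega
    calc (T.ball (k + 1) v).card
        ≤ ((T.ball k v).biUnion (fun u => insert u (insert (T.par u) (T.ch u)))).card :=
          Finset.card_le_card hsub
      _ ≤ (T.ball k v).card * (Δ + 2) := Finset.card_biUnion_le_card_mul _ _ _ hcard
      _ ≤ (Δ + 2) ^ k * (Δ + 2) := Nat.mul_le_mul_right _ ih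
      _ = (Δ + 2) ^ (k + 1) := (pow_succ _ _).symm

theorem tb_sep {T : PTree n} {z v : Fin n} (hv : T.Le z v) :
    ∀ (k : ℕ) (w : Fin n), w ∈ T.ball k v → ¬ T.Le z w → z ∈ T.ball k v ∧ z ∈ T.ball k w := by
  intro k
  induction k with
  | zero =>
    intro w hw hzw
    rw [tb_mem_ball_zero] at hw
    subst hw
    exact absurd hv hzw
  | succ k ih =>
    intro w hw hzw
    rcases tb_mem_ball_succ.1 hw with h1 | ⟨u, hu, huw⟩
    · obtain ⟨h2, h3⟩ := ih w h1 hzw
      exact ⟨tb_mem_ball_succ.2 (Or.inl h2), tb_mem_ball_succ.2 (Or.inl h3)⟩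
    · by_cases hzu : T.Le z u
      · have hzeq : z = u := by
          rcases huw with ⟨h0, hp⟩ | ⟨h0, hp⟩
          · exfalso
            apply hzw
            apply PTree.le_iff.2
            right
            rw [hp]
            exact ⟨h0, hzu⟩
          · rcases PTree.le_iff.1 hzu with h2 | ⟨_, h2⟩
            · exact h2
            · rw [hp] at h2
              exact absurd h2 hzw
        subst hzeq
        exact ⟨tb_mem_ball_succ.2 (Or.inl hu),
          PTree.ball_mono T (by omega) w (huw.symm.mem_ball)⟩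
      · obtain ⟨h2, h3⟩ := ih u hu hzu
        exact ⟨tb_mem_ball_succ.2 (Or.inl h2), tb_ball_cons huw.symm k z h3⟩

theorem PTree.mem_ball_of_sep {T : PTree n} {k : ℕ} {z v w : Fin n} (h : w ∈ T.ball k v)
    (hv : T.Le z v) (hw : ¬ T.Le z w) : z ∈ T.ball k v ∧ z ∈ T.ball k w := tb_sep hv k w h hw

theorem PTree.col_par (T : PTree n) (v : Fin n) (hv : (v : ℕ) ≠ 0) :
    T.col v = !(T.col (T.par v)) := by
  rw [PTree.col, dif_neg hv]

end

end OT
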