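import Pool.Agent.Helper62.EX.TB
import Pool.Agent.Helper27.EX.IDefs
import Pool.Agent.Helper14.EX.LAYG

/-!
# MP_2857a5_co : cutting the tree (module TC), from the layout lemma with a target
-/

set_option autoImplicit false

open Finset
open scoped Classical

namespace OT

noncomputable section

variable {n : ℕ}

/-- The statement of the layout lemma with a target. -/
def tc_LayG : Prop := ∀ (Δ R : ℕ) (η : ℝ), 0 < η → ∃ (K : ℕ) (η' : ℝ), 0 < η' ∧
    ∀ (n : ℕ) (T : PTree n), T.Deg Δ → K ≤ n →
    ∀ pos far : Fin n → Bool, T.Alt pos far ∅ →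
    ∀ h : Fin n → ℤ, (∀ v, |h v| ≤ 1) →
    ∀ m : ℤ, (m = 0 ∨ ((∀ v, h v = 1) ∧ |(m : ℝ)| ≤ η' * (n : ℝ))) →
    ∀ M : Finset (Fin n), η * (n : ℝ) ≤ (M.card : ℝ) →
    ∃ F P Q : Finset (Fin n), Layout T pos far R F P Q ∧
      (P ∪ Q).card ≤ K * (Nat.log 2 n + 1) ∧
      |(∑ v, h v * (if v ∈ F then -1 else 1)) - m| ≤ K ∧
      η' * (n : ℝ) ≤ ((M ∩ F).card : ℝ) ∧ η' * (n : ℝ) ≤ ((M \ F).card : ℝ)

/-- The abstract construction. -/
theorem tc_build (T : PTree n) (R : ℕ) (kd : Bool → Bool → Bool) (side : Fin n → Bool)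
    (Z : Finset (Fin n)) (sp : Fin n → Fin n) (cl : Fin n → Bool)
    (hsep : ∀ a ∈ Z, ∀ b ∈ Z, a ≠ b → b ∉ T.ball (R + 4) a)
    (hsp : ∀ a ∈ Z, sp a ∈ T.ball 1 a)
    (harc : ∀ x y, T.Arc x y → side x ≠ side y → ∃ a ∈ Z, sp a = x ∨ sp a = y)
    (hcon : ∀ a ∈ Z, ∀ s, kd (cl a) s = true → ∀ y, Adj T.Arc s (sp a) y →
      side y = xor (cl a) s) :
    TreeC T R kd side (fun δ => (Z.filter fun a => cl a = δ).image sp) ∧
      ∀ δ, ((Z.filter fun a => cl a = δ).image sp).card ≤ Z.card := by
  have hmem : ∀ (δ : Bool) (x : Fin n), x ∈ (Z.filter fun a => cl a = δ).image sp ↔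
      ∃ a ∈ Z, cl a = δ ∧ sp a = x := by
    intro δ x
    rw [Finset.mem_image]
    constructor
    · rintro ⟨a, ha, rfl⟩
      exact ⟨a, (Finset.mem_filter.1 ha).1, (Finset.mem_filter.1 ha).2, rfl⟩
    · rintro ⟨a, ha, h1, rfl⟩
      exact ⟨a, Finset.mem_filter.2 ⟨ha, h1⟩, rfl⟩
  have hmemU : ∀ x : Fin n, x ∈ (Z.filter fun a => cl a = true).image sp ∪
      (Z.filter fun a => cl a = false).image sp ↔ ∃ a ∈ Z, sp a = x := by
    intro x
    rw [Finset.mem_union, hmem, hmem]
    constructor
    · rintro (⟨a, ha, _, h⟩ | ⟨a, ha, _, h⟩)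
      · exact ⟨a, ha, h⟩
      · exact ⟨a, ha, h⟩
    · rintro ⟨a, ha, h⟩
      cases hcl : cl a
      · exact Or.inr ⟨a, ha, hcl, h⟩
      · exact Or.inl ⟨a, ha, hcl, h⟩
  have hball : ∀ a ∈ Z, ∀ b ∈ Z, ∀ j, j ≤ R → sp b ∈ T.ball j (sp a) → a = b := by
    intro a ha b hb j hj h
    by_contra hne
    have h1 : sp b ∈ T.ball (1 + j) a := PTree.ball_trans (hsp a ha) h
    have h2 : b ∈ T.ball 1 (sp b) := PTree.mem_ball_comm.1 (hsp b hb)
    have h3 : b ∈ T.ball (1 + j + 1) a := PTree.ball_trans h1 h2
    exact hsep a ha b hb hne (PTree.ball_mono T (by omega) a h3)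
  refine ⟨⟨?_, ?_, ?_, ?_⟩, ?_⟩
  · rw [Finset.disjoint_left]
    intro x hx hx'
    obtain ⟨a, ha, ha1, ha2⟩ := (hmem true x).1 hx
    obtain ⟨b, hb, hb1, hb2⟩ := (hmem false x).1 hx'
    have hab : a = b := hball a ha b hb 0 (Nat.zero_le _) (by
      rw [tb_mem_ball_zero, ha2, hb2])
    rw [hab, hb1] at ha1
    exact absurd ha1 (by simp)
  · intro x hx y hy hne h
    obtain ⟨a, ha, ha2⟩ := (hmemU x).1 hx
    obtain ⟨b, hb, hb2⟩ := (hmemU y).1 hy
    rw [← ha2, ← hb2] at h
    have hab := hball a ha b hb R le_rfl h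
    exact hne (by rw [← ha2, ← hb2, hab])
  · intro x y hxy
    by_cases hs : side x = side y
    · exact Or.inl hs
    · obtain ⟨a, ha, h | h⟩ := harc x y hxy hs
      · exact Or.inr (Or.inl ((hmemU x).2 ⟨a, ha, h⟩))
      · exact Or.inr (Or.inr ((hmemU y).2 ⟨a, ha, h⟩))
  · intro δ x hx s hs y hy
    obtain ⟨a, ha, ha1, ha2⟩ := (hmem δ x).1 hx
    subst ha2
    subst ha1
    exact hcon a ha s hs y hy
  · intro δ
    exact Finset.card_image_le.trans (Finset.card_le_card (Finset.filter_subset _ _))

/-- The tail of the edge above `v`. -/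
def tc_tl (T : PTree n) (v : Fin n) : Fin n := if T.sg v = true then T.par v else v

/-- The head of the edge above `v`. -/
def tc_hd (T : PTree n) (v : Fin n) : Fin n := if T.sg v = true then v else T.par v

theorem tc_arc_iff (T : PTree n) (x y : Fin n) :
    T.Arc x y ↔ ∃ w : Fin n, (w : ℕ) ≠ 0 ∧ tc_tl T w = x ∧ tc_hd T w = y := by
  unfold PTree.Arc tc_tl tc_hd
  constructor
  · rintro (⟨h0, h1, h2⟩ | ⟨h0, h1, h2⟩)
    · exact ⟨y, h0, by rw [if_pos h2, h1], by rw [if_pos h2]⟩
    · have h3 : ¬ T.sg x = true := by rw [h2]; simp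
      exact ⟨x, h0, by rw [if_neg h3], by rw [if_neg h3, h1]⟩
  · rintro ⟨w, h0, h1, h2⟩
    by_cases hw : T.sg w = true
    · rw [if_pos hw] at h1 h2
      subst h1 h2
      exact Or.inl ⟨h0, rfl, hw⟩
    · rw [if_neg hw] at h1 h2
      subst h1 h2
      exact Or.inr ⟨h0, rfl, by simpa using hw⟩

theorem tc_nb (T : PTree n) {w : Fin n} (h0 : (w : ℕ) ≠ 0) : T.Nb w (T.par w) :=
  Or.inr ⟨h0, rfl⟩

theorem tc_tl_ball (T : PTree n) {w : Fin n} (h0 : (w : ℕ) ≠ 0) : tc_tl T w ∈ T.ball 1 w := by
  unfold tc_tl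
  split_ifs
  · exact (tc_nb T h0).mem_ball
  · exact PTree.self_mem_ball T 1 w

theorem tc_hd_ball (T : PTree n) {w : Fin n} (h0 : (w : ℕ) ≠ 0) : tc_hd T w ∈ T.ball 1 w := by
  unfold tc_hd
  split_ifs
  · exact PTree.self_mem_ball T 1 w
  · exact (tc_nb T h0).mem_ball

theorem tc_ne (T : PTree n) {w : Fin n} (h0 : (w : ℕ) ≠ 0) : tc_tl T w ≠ tc_hd T w := by
  have := T.lt w h0
  unfold tc_tl tc_hd
  split_ifs
  · exact this.ne
  · exact this.ne'

/-- Membership of the end points determines the side. -/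
theorem tc_side_iff (T : PTree n) (F : Finset (Fin n)) (c : Bool) {w : Fin n}
    (h0 : (w : ℕ) ≠ 0) :
    xor c (decide (tc_tl T w ∈ F)) ≠ xor c (decide (tc_hd T w ∈ F)) ↔ w ∈ T.bd F := by
  have h1 : w ∈ T.bd F ↔ ¬ (w ∈ F ↔ T.par w ∈ F) := by
    unfold PTree.bd
    rw [Finset.mem_filter]
    simp [h0]
  rw [h1]
  unfold tc_tl tc_hd
  by_cases hw : w ∈ F <;> by_cases hp : T.par w ∈ F <;> cases c <;> split_ifs <;> simp [hw, hp]

/-- Both end points of an edge `w` touching `z` are close to `z`. -/
theorem tc_close (T : PTree n) {w z v : Fin n} (h0 : (w : ℕ) ≠ 0)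
    (hz : z = tc_tl T w ∨ z = tc_hd T w) (hv : z ∈ T.ball 1 v) :
    w ∈ T.ball 3 v ∧ T.par w ∈ T.ball 3 v := by
  have h1 : z ∈ T.ball 1 w := by
    rcases hz with rfl | rfl
    · exact tc_tl_ball T h0
    · exact tc_hd_ball T h0
  have h2 : w ∈ T.ball 1 z := PTree.mem_ball_comm.1 h1
  have h3 : w ∈ T.ball (1 + 1) v := PTree.ball_trans hv h2
  have h4 : T.par w ∈ T.ball (1 + 1 + 1) v := PTree.ball_trans h3 (tc_nb T h0).mem_ball
  exact ⟨PTree.ball_mono T (by omega) v h3, h4⟩

/-- the special end point for a single -/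
def tc_sp (T : PTree n) (kd : Bool → Bool → Bool) (side : Fin n → Bool) (v : Fin n) : Fin n :=
  if kd (side (tc_tl T v)) true = false then tc_tl T v else tc_hd T v

theorem tc_sp_cases (T : PTree n) (kd : Bool → Bool → Bool) (side : Fin n → Bool) (v : Fin n) :
    tc_sp T kd side v = tc_tl T v ∨ tc_sp T kd side v = tc_hd T v := by
  unfold tc_sp
  split_ifs
  · exact Or.inl rfl
  · exact Or.inr rfl

theorem tc_sp_ball (T : PTree n) (kd : Bool → Bool → Bool) (side : Fin n → Bool) {v : Fin n}
    (h0 : (v : ℕ) ≠ 0) : tc_sp T kd side v ∈ T.ball 1 v := by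
  rcases tc_sp_cases T kd side v with h | h
  · rw [h]; exact tc_tl_ball T h0
  · rw [h]; exact tc_hd_ball T h0

theorem tc_bd_ne {T : PTree n} {F : Finset (Fin n)} {v : Fin n} (h : v ∈ T.bd F) :
    (v : ℕ) ≠ 0 := by
  unfold PTree.bd at h
  rw [Finset.mem_filter] at h
  exact h.2.1

/-- near a single, only its own edge is a boundary edge -/
theorem tc_only {T : PTree n} {pos far : Fin n → Bool} {R : ℕ} {F P Q : Finset (Fin n)}
    (hL : Layout T pos far (R + 4) F P Q) {v w : Fin n} (hv : v ∈ Q) (hw : w ∈ T.bd F)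
    (h1 : w ∈ T.ball 3 v) (h2 : T.par w ∈ T.ball 3 v) : w = v := by
  have hvb := (hL.sgl v hv).1
  have hvPQ : v ∈ P ∪ Q := Finset.mem_union_right _ hv
  rcases hL.bd w hw with h | ⟨_, h⟩
  · by_contra hne
    exact hL.sep v hvPQ w (Finset.mem_union_right _ h) (Ne.symm hne)
      (PTree.ball_mono T (by omega) v h1)
  · by_cases hpv : v = T.par w
    · exact absurd hvb (hL.gSelf v (by rw [hpv]; exact h))
    · exact absurd (PTree.ball_mono T (by omega) v h2)
        (hL.sep v hvPQ _ (Finset.mem_union_left _ h) hpv)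

/-- the condition at a single -/
theorem tc_con_single {T : PTree n} {pos far : Fin n → Bool} {R : ℕ} {F P Q : Finset (Fin n)}
    (hL : Layout T pos far (R + 4) F P Q) (kd : Bool → Bool → Bool) (c : Bool) {v : Fin n}
    (hv : v ∈ Q)
    (hk : ∃ s, kd (xor c (decide (tc_tl T v ∈ F))) s = false) (s : Bool)
    (hs : kd (xor c (decide (tc_tl T v ∈ F))) s = true) (y : Fin n)
    (hy : Adj T.Arc s (tc_sp T kd (fun x => xor c (decide (x ∈ F))) v) y) :
    xor c (decide (y ∈ F)) = xor (xor c (decide (tc_tl T v ∈ F))) s := by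
  have hvb := (hL.sgl v hv).1
  have hv0 := tc_bd_ne hvb
  have hside := (tc_side_iff T F c hv0).2 hvb
  set δ := xor c (decide (tc_tl T v ∈ F)) with hδ
  unfold tc_sp at hy
  by_cases hkt : kd δ true = false
  · -- the tail
    have hs' : s = false := by
      cases s
      · rfl
      · rw [hkt] at hs; exact absurd hs (by simp)
    subst hs'
    rw [if_pos hkt] at hy
    have hy' : T.Arc y (tc_tl T v) := hy
    obtain ⟨w, hw0, hw1, hw2⟩ := (tc_arc_iff T _ _).1 hy'
    have hwv : w ≠ v := by
      rintro rfl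
      exact tc_ne T hw0 hw2.symm
    obtain ⟨c1, c2⟩ := tc_close T hw0 (Or.inr hw2.symm) (tc_tl_ball T hv0)
    have hnb : w ∉ T.bd F := fun hw => hwv (tc_only hL hv hw c1 c2)
    have h3 : xor c (decide (tc_tl T w ∈ F)) = xor c (decide (tc_hd T w ∈ F)) := by
      by_contra h4
      exact hnb ((tc_side_iff T F c hw0).1 h4)
    rw [hw1, hw2] at h3
    rw [h3, Bool.xor_false]
  · -- the head
    have hkt' : kd δ true = true := by simpa using hkt
    have hs' : s = true := by
      cases s
      · obtain ⟨s', hs'⟩ := hk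
        cases s'
        · rw [hs'] at hs; exact absurd hs (by simp)
        · rw [hkt'] at hs'; exact absurd hs' (by simp)
      · rfl
    subst hs'
    rw [if_neg hkt] at hy
    have hy' : T.Arc (tc_hd T v) y := hy
    obtain ⟨w, hw0, hw1, hw2⟩ := (tc_arc_iff T _ _).1 hy'
    have hwv : w ≠ v := by
      rintro rfl
      exact tc_ne T hw0 hw1
    obtain ⟨c1, c2⟩ := tc_close T hw0 (Or.inl hw1.symm) (tc_hd_ball T hv0)
    have hnb : w ∉ T.bd F := fun hw => hwv (tc_only hL hv hw c1 c2)
    have h3 : xor c (decide (tc_tl T w ∈ F)) = xor c (decide (tc_hd T w ∈ F)) := by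
      by_contra h4
      exact hnb ((tc_side_iff T F c hw0).1 h4)
    rw [hw1, hw2] at h3
    rw [← h3]
    rw [Bool.xor_true]
    have h5 : δ ≠ xor c (decide (tc_hd T v ∈ F)) := hside
    revert h5
    cases δ <;> cases xor c (decide (tc_hd T v ∈ F)) <;> simp

/-- the numbers -/
theorem tc_count (F : Finset (Fin n)) (c : Bool) (m : ℤ) (K : ℕ)
    (h : |(∑ v : Fin n, (1 : ℤ) * (if v ∈ F then -1 else 1)) - (if c = true then m else -m)| ≤ K) :
    |2 * ((univ.filter fun v => xor c (decide (v ∈ F)) = true).card : ℤ) - n - m| ≤ K := by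
  have e1 : ∑ v : Fin n, (1 : ℤ) * (if v ∈ F then -1 else 1) = (n : ℤ) - 2 * F.card := by
    have h1 : ∀ v : Fin n, (1 : ℤ) * (if v ∈ F then -1 else 1) = 1 - 2 * (if v ∈ F then 1 else 0) := by
      intro v
      split_ifs <;> norm_num
    rw [Finset.sum_congr rfl fun v _ => h1 v, Finset.sum_sub_distrib, ← Finset.mul_sum,
      Finset.sum_const, Finset.card_univ, Fintype.card_fin, Finset.sum_ite_mem, Finset.univ_inter,
      Finset.sum_const]
    simp
  rw [e1] at h
  cases c
  · have e2 : (univ.filter fun v => xor false (decide (v ∈ F)) = true) = F := by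
      ext v
      simp
    rw [e2]
    rw [if_neg (by simp)] at h
    rw [abs_le] at h ⊢
    constructor <;> linarith [h.1, h.2]
  · have e2 : (univ.filter fun v => xor true (decide (v ∈ F)) = true) = Fᶜ := by
      ext v
      simp
    have e3 : ((Fᶜ).card : ℤ) = n - F.card := by
      rw [Finset.card_compl, Fintype.card_fin]
      have : F.card ≤ n := by
        have := Finset.card_le_univ F
        rwa [Fintype.card_fin] at this
      push_cast [Nat.cast_sub this]
      ring
    rw [e2, e3]
    rw [if_pos rfl] at h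
    rw [abs_le] at h ⊢
    constructor <;> linarith [h.1, h.2]

theorem tc_mass (M F : Finset (Fin n)) (c : Bool) (x : ℝ) (h1 : x ≤ ((M ∩ F).card : ℝ))
    (h2 : x ≤ ((M \ F).card : ℝ)) (k : Bool) :
    x ≤ ((M.filter fun v => xor c (decide (v ∈ F)) = k).card : ℝ) := by
  have e : (M.filter fun v => xor c (decide (v ∈ F)) = k) = M ∩ F ∨
      (M.filter fun v => xor c (decide (v ∈ F)) = k) = M \ F := by
    cases c <;> cases k
    · right; ext v; simp
    · left; ext v; simp
    · left; ext v; simp
    · right; ext v; simp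
  rcases e with e | e
  · rw [e]; exact h1
  · rw [e]; exact h2

theorem tc_main (hLay : tc_LayG) (Δ R : ℕ) (η : ℝ) (hη : 0 < η) : ∃ (K : ℕ) (η' : ℝ), 0 < η' ∧
    ∀ (n : ℕ) (T : PTree n), T.Deg Δ → K ≤ n →
    ∀ kd : Bool → Bool → Bool, (∃ δ s, kd δ s = false) →
    ∀ m : ℤ, |(m : ℝ)| ≤ η' * (n : ℝ) →
    ∀ M : Finset (Fin n), η * (n : ℝ) ≤ (M.card : ℝ) →
    ∃ (side : Fin n → Bool) (Tc : Bool → Finset (Fin n)), TreeC T R kd side Tc ∧
      (∀ δ, (Tc δ).card ≤ K * (Nat.log 2 n + 1)) ∧
      |2 * ((univ.filter fun v => side v = true).card : ℤ) - n - m| ≤ K ∧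
      ∀ k, η' * (n : ℝ) ≤ ((M.filter fun v => side v = k).card : ℝ) := by
  obtain ⟨K, η', hη', hK⟩ := hLay Δ (R + 4) η hη
  refine ⟨K, η', hη', fun n T hT hn kd ⟨ι, s₀, hι⟩ m hm M hM => ?_⟩
  by_cases hmode : ∃ s, kd (!ι) s = false
  · -- both classes have a free direction
    have hall : ∀ δ, ∃ s, kd δ s = false := by
      intro δ
      by_cases hδ : δ = ι
      · exact ⟨s₀, by rw [hδ]; exact hι⟩
      · have : δ = !ι := by
          revert hδ
          cases δ <;> cases ι <;> simp
        rw [this]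
        exact hmode
    obtain ⟨F, P, Q, hL, hPQ, hsum, hM1, hM2⟩ := hK n T hT hn T.col (fun _ => false)
      (fun v hv _ => Or.inr (by rw [PTree.col_par T v hv]; simp)) (fun _ => 1)
      (fun _ => by simp) m (Or.inr ⟨fun _ => rfl, hm⟩) M hM
    have hQ : ∀ w ∈ T.bd F, w ∈ Q := by
      intro w hw
      rcases hL.bd w hw with h | ⟨h, _⟩
      · exact h
      · exact absurd h (by simp)
    set side : Fin n → Bool := fun x => xor true (decide (x ∈ F)) with hside
    obtain ⟨hTC, hcard⟩ := tc_build T R kd side Q (tc_sp T kd side)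
      (fun v => side (tc_tl T v))
      (fun a ha b hb hne => hL.sep a (Finset.mem_union_right _ ha) b
        (Finset.mem_union_right _ hb) hne)
      (fun a ha => tc_sp_ball T kd side (tc_bd_ne (hL.sgl a ha).1))
      (by
        intro x y hxy hs
        obtain ⟨w, hw0, hw1, hw2⟩ := (tc_arc_iff T x y).1 hxy
        have hwb : w ∈ T.bd F := by
          rw [← tc_side_iff T F true hw0, hw1, hw2]
          exact hs
        refine ⟨w, hQ w hwb, ?_⟩
        rcases tc_sp_cases T kd side w with h | h
        · exact Or.inl (h.trans hw1)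
        · exact Or.inr (h.trans hw2))
      (fun a ha s hs y hy => tc_con_single hL kd true ha (hall _) s hs y hy)
    refine ⟨side, _, hTC, fun δ => (hcard δ).trans ?_, ?_, ?_⟩
    · exact (Finset.card_le_card Finset.subset_union_right).trans hPQ
    · exact tc_count F true m K (by rw [if_pos rfl]; exact hsum)
    · exact fun k => tc_mass M F true _ hM1 hM2 k
  · -- the second class has no free direction
    have hm' : |(((if ι = true then m else -m : ℤ)) : ℝ)| ≤ η' * (n : ℝ) := by
      split_ifs
      · exact hm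
      · push_cast
        rw [abs_neg]
        exact hm
    obtain ⟨F, P, Q, hL, hPQ, hsum, hM1, hM2⟩ := hK n T hT hn (fun v => !(T.sg v))
      (fun v => decide (T.sg v = T.sg (T.par v)))
      (fun v _ _ => by
        by_cases h : T.sg v = T.sg (T.par v)
        · exact Or.inl (by simp [h])
        · right
          intro heq
          exact h (Bool.not_inj heq)) (fun _ => 1)
      (fun _ => by simp) (if ι = true then m else -m) (Or.inr ⟨fun _ => rfl, hm'⟩) M hM
    set side : Fin n → Bool := fun x => xor ι (decide (x ∈ F)) with hside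
    -- the tail of a single is on the side `ι`
    have htail : ∀ v ∈ Q, side (tc_tl T v) = ι := by
      intro v hv
      obtain ⟨h1, h2⟩ := hL.sgl v hv
      have hv0 := tc_bd_ne h1
      have h3 : ¬ (v ∈ F ↔ T.par v ∈ F) := by
        unfold PTree.bd at h1
        rw [Finset.mem_filter] at h1
        exact h1.2.2
      have h4 : tc_tl T v ∉ F := by
        unfold tc_tl
        by_cases hvF : v ∈ F
        · have hsg : T.sg v = true := by
            by_contra hsg
            have : T.sg v = false := by simpa using hsg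
            rw [this] at h2
            simp [hvF] at h2
          rw [if_pos hsg]
          intro hp
          exact h3 ⟨fun _ => hp, fun _ => hvF⟩
        · have hsg : ¬ T.sg v = true := by
            intro hsg
            rw [hsg] at h2
            simp [hvF] at h2
          rw [if_neg hsg]
          exact hvF
      show xor ι (decide (tc_tl T v ∈ F)) = ι
      rw [decide_eq_false h4, Bool.xor_false]
    have hPnQ : ∀ p ∈ P, p ∉ Q := fun p hp hq => hL.gSelf p hp (hL.sgl p hq).1
    have hsame : ∀ w : Fin n, (w : ℕ) ≠ 0 → w ∉ T.bd F → side w = side (T.par w) := by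
      intro w hw0 hw
      have h1 : w ∈ F ↔ T.par w ∈ F := by
        by_contra h2
        exact hw (by unfold PTree.bd; rw [Finset.mem_filter]; exact ⟨Finset.mem_univ _, hw0, h2⟩)
      show xor ι (decide (w ∈ F)) = xor ι (decide (T.par w ∈ F))
      rw [decide_eq_decide.2 h1]
    have hdiff : ∀ w : Fin n, w ∈ T.bd F → side w = !(side (T.par w)) := by
      intro w hw
      have h1 : ¬ (w ∈ F ↔ T.par w ∈ F) := by
        unfold PTree.bd at hw
        rw [Finset.mem_filter] at hw
        exact hw.2.2
      show xor ι (decide (w ∈ F)) = !(xor ι (decide (T.par w ∈ F)))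
      by_cases h2 : w ∈ F <;> by_cases h3 : T.par w ∈ F
      · exact absurd ⟨fun _ => h3, fun _ => h2⟩ h1
      · cases ι <;> simp [h2, h3]
      · cases ι <;> simp [h2, h3]
      · exact absurd ⟨fun h => absurd h h2, fun h => absurd h h3⟩ h1
    obtain ⟨hTC, hcard⟩ := tc_build T R kd side (P ∪ Q)
      (fun v => if v ∈ Q then tc_sp T kd side v else v)
      (fun v => if v ∈ Q then side (tc_tl T v) else
        (if T.sg v = true then side v else !(side v)))
      (fun a ha b hb hne => hL.sep a ha b hb hne)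
      (by
        intro a ha
        show (if a ∈ Q then tc_sp T kd side a else a) ∈ T.ball 1 a
        by_cases haQ : a ∈ Q
        · rw [if_pos haQ]
          exact tc_sp_ball T kd side (tc_bd_ne (hL.sgl a haQ).1)
        · rw [if_neg haQ]
          exact PTree.self_mem_ball T 1 a)
      (by
        intro x y hxy hs
        obtain ⟨w, hw0, hw1, hw2⟩ := (tc_arc_iff T x y).1 hxy
        have hwb : w ∈ T.bd F := by
          rw [← tc_side_iff T F ι hw0, hw1, hw2]
          exact hs
        rcases hL.bd w hwb with h | ⟨_, h⟩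
        · refine ⟨w, Finset.mem_union_right _ h, ?_⟩
          show (if w ∈ Q then tc_sp T kd side w else w) = x ∨
            (if w ∈ Q then tc_sp T kd side w else w) = y
          rw [if_pos h]
          rcases tc_sp_cases T kd side w with h | h
          · exact Or.inl (h.trans hw1)
          · exact Or.inr (h.trans hw2)
        · refine ⟨T.par w, Finset.mem_union_left _ h, ?_⟩
          show (if T.par w ∈ Q then tc_sp T kd side (T.par w) else T.par w) = x ∨
            (if T.par w ∈ Q then tc_sp T kd side (T.par w) else T.par w) = y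
          rw [if_neg (hPnQ _ h), ← hw1, ← hw2]
          unfold tc_tl tc_hd
          by_cases hsw : T.sg w = true
          · left; rw [if_pos hsw]
          · right; rw [if_neg hsw])
      (by
        intro a ha s hs y hy
        by_cases haQ : a ∈ Q
        · have hs' : kd (side (tc_tl T a)) s = true := by
            have h1 : kd (if a ∈ Q then side (tc_tl T a) else
              (if T.sg a = true then side a else !(side a))) s = true := hs
            rwa [if_pos haQ] at h1
          have hy' : Adj T.Arc s (tc_sp T kd side a) y := by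
            have h1 : Adj T.Arc s (if a ∈ Q then tc_sp T kd side a else a) y := hy
            rwa [if_pos haQ] at h1
          show side y = xor (if a ∈ Q then side (tc_tl T a) else
              (if T.sg a = true then side a else !(side a))) s
          rw [if_pos haQ]
          refine tc_con_single hL kd ι haQ ⟨s₀, ?_⟩ s hs' y hy'
          have h2 : side (tc_tl T a) = ι := htail a haQ
          have h3 : xor ι (decide (tc_tl T a ∈ F)) = ι := h2
          rw [h3]
          exact hι
        · have haP : a ∈ P := by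
            rcases Finset.mem_union.1 ha with h | h
            · exact h
            · exact absurd h haQ
          have hy' : Adj T.Arc s a y := by
            have h1 : Adj T.Arc s (if a ∈ Q then tc_sp T kd side a else a) y := hy
            rwa [if_neg haQ] at h1
          show side y = xor (if a ∈ Q then side (tc_tl T a) else
              (if T.sg a = true then side a else !(side a))) s
          rw [if_neg haQ]
          have hself := hL.gSelf a haP
          -- children
          have hfar : ∀ c : Fin n, (c : ℕ) ≠ 0 → T.par c = a → T.sg c = T.sg a → side c = !(side a) := by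
            intro c hc0 hc hcs
            have h1 : c ∈ T.bd F := hL.gFar a haP c (tb_mem_ch.2 ⟨hc0, hc⟩) (by
              rw [hc]; simp [hcs])
            rw [hdiff c h1, hc]
          have hnear : ∀ c : Fin n, (c : ℕ) ≠ 0 → T.par c = a → T.sg c ≠ T.sg a → side c = side a := by
            intro c hc0 hc hcs
            have h1 : c ∉ T.bd F := hL.gNear a haP c (tb_mem_ch.2 ⟨hc0, hc⟩) (by
              rw [hc]; simp [hcs])
            rw [hsame c hc0 h1, hc]
          cases s
          · -- in-neighbours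
            have hy2 : T.Arc y a := hy'
            rcases hy2 with ⟨h0, h1, h2⟩ | ⟨h0, h1, h2⟩
            · -- the parent
              rw [if_pos h2, Bool.xor_false, ← h1]
              exact (hsame a h0 hself).symm
            · by_cases hsa : T.sg a = true
              · rw [if_pos hsa, Bool.xor_false]
                exact hnear y h0 h1 (by rw [h2, hsa]; simp)
              · rw [if_neg hsa, Bool.xor_false]
                exact hfar y h0 h1 (by rw [h2]; simpa using hsa)
          · -- out-neighbours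
            have hy2 : T.Arc a y := hy'
            rcases hy2 with ⟨h0, h1, h2⟩ | ⟨h0, h1, h2⟩
            · by_cases hsa : T.sg a = true
              · rw [if_pos hsa, Bool.xor_true]
                exact hfar y h0 h1 (by rw [h2, hsa])
              · rw [if_neg hsa, Bool.xor_true, Bool.not_not]
                exact hnear y h0 h1 (by rw [h2]; exact fun h => hsa h.symm)
            · have hsa : ¬ T.sg a = true := by rw [h2]; simp
              rw [if_neg hsa, Bool.xor_true, Bool.not_not, ← h1]
              exact (hsame a h0 hself).symm)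
    refine ⟨side, _, hTC, fun δ => (hcard δ).trans hPQ, ?_, ?_⟩
    · exact tc_count F ι m K hsum
    · exact fun k => tc_mass M F ι _ hM1 hM2 k

/-- Cutting the tree. -/
theorem treeC (Δ R : ℕ) (η : ℝ) (hη : 0 < η) : ∃ (K : ℕ) (η' : ℝ), 0 < η' ∧
    ∀ (n : ℕ) (T : PTree n), T.Deg Δ → K ≤ n →
    ∀ kd : Bool → Bool → Bool, (∃ δ s, kd δ s = false) →
    ∀ m : ℤ, |(m : ℝ)| ≤ η' * (n : ℝ) →
    ∀ M : Finset (Fin n), η * (n : ℝ) ≤ (M.card : ℝ) →
    ∃ (side : Fin n → Bool) (Tc : Bool → Finset (Fin n)), TreeC T R kd side Tc ∧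
      (∀ δ, (Tc δ).card ≤ K * (Nat.log 2 n + 1)) ∧
      |2 * ((univ.filter fun v => side v = true).card : ℤ) - n - m| ≤ K ∧
      ∀ k, η' * (n : ℝ) ≤ ((M.filter fun v => side v = k).card : ℝ) :=
  tc_main (fun Δ R η hη => layoutG Δ R η hη) Δ R η hη

end

end OT
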